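import Mathlib

namespace Pool.Agent.H.MP_349e68_an

open Filter Topology Set

abbrev V := ℕ × List Bool

def par (v : V) : V := if v.2 = [] then (v.1 - 1, []) else (v.1, v.2.dropLast)

def rk (v : V) : ℕ := v.1 + v.2.length

def W (m : ℕ) : Prop := ∃ j, m = 2 ^ (j + 1)

open Classical in
noncomputable def r (m : ℕ) : List Bool :=
  if W m then [] else if m % 2 = 0 then [true, false] else [false, true]

def st : List Bool → List Bool
  | [] => []
  | b :: s => b :: b :: st s

noncomputable def phi (v : V) : V := (v.1 / 2, r v.1 ++ st v.2)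

def d : List Bool → List Bool → ℕ
  | [], t => t.length
  | s, [] => s.length
  | a :: s, b :: t => if a = b then d s t else s.length + t.length + 2

def δ (x y : V) : ℕ := if x.1 = y.1 then d x.2 y.2 else x.2.length + y.2.length

lemma st_len (s : List Bool) : (st s).length = 2 * s.length := by
  induction s with
  | nil => rfl
  | cons b s ih => simp [st, ih]; omega

lemma st_snoc (s : List Bool) (b : Bool) : st (s ++ [b]) = st s ++ [b] ++ [b] := by
  induction s with
  | nil => rfl
  | cons a s ih => simp [st, ih]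

lemma d_nil (s : List Bool) : d s [] = s.length := by cases s <;> simp [d]

lemma d_app (a s t : List Bool) : d (a ++ s) (a ++ t) = d s t := by
  induction a with
  | nil => rfl
  | cons b a ih => simp [d, ih]

lemma d_st : ∀ s t : List Bool, d (st s) (st t) = 2 * d s t
  | [], t => by simp [st, d, st_len]
  | a :: s, [] => by simp [st, d, st_len]; omega
  | a :: s, b :: t => by
    by_cases h : a = b <;> simp [st, d, h, d_st s t, st_len]; omega

lemma d_pos : ∀ s t : List Bool, s ≠ t → 0 < d s t
  | [], [], h => absurd rfl h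
  | [], b :: t, _ => by simp [d]
  | a :: s, [], _ => by simp [d]
  | a :: s, b :: t, h => by
    by_cases e : a = b
    · subst e; simpa [d] using d_pos s t (by simpa using h)
    · simp [d, e]

lemma d_snoc (b : Bool) : ∀ s t : List Bool, d (s ++ [b]) t ≤ d s t + 1 ∧ d s t ≤ d (s ++ [b]) t + 1
  | s, [] => by simp [d_nil]; omega
  | [], c :: t => by by_cases e : b = c <;> simp [d, e]; omega
  | a :: s, c :: t => by
    have := d_snoc b s t
    by_cases e : a = c <;> simp [d, e] <;> omega

lemma d_ge : ∀ s t : List Bool, s.length ≤ d s t + t.length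
  | [], _ => by simp
  | a :: s, [] => by simp [d]
  | a :: s, c :: t => by
    have := d_ge s t
    by_cases e : a = c <;> simp [d, e] <;> omega

lemma d_symm : ∀ s t : List Bool, d s t = d t s
  | [], t => by simp [d, d_nil]
  | a :: s, [] => by simp [d]
  | a :: s, c :: t => by
    have := d_symm s t
    by_cases e : a = c
    · simp [d, e, this]
    · simp [d, e, Ne.symm e]; omega

lemma δ_symm (x y : V) : δ x y = δ y x := by
  unfold δ; rw [d_symm]; split_ifs <;> omega

lemma δ_self (x : V) : δ x x = 0 := by simpa [δ, d] using d_app x.2 [] []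

lemma r_odd {m : ℕ} (h : m % 2 = 1) : r m = [false, true] := by
  rw [r, if_neg (by rintro ⟨j, rfl⟩; omega), if_neg (by omega)]

lemma r_even {m : ℕ} (h : m % 2 = 0) : r m = [] ∨ r m = [true, false] := by
  unfold r; split_ifs <;> simp

lemma r_len {m : ℕ} (h : ¬ W m) : (r m).length = 2 := by
  rw [r, if_neg h]; split_ifs <;> rfl

lemma δ_phi (x y : V) : 2 * δ x y ≤ δ (phi x) (phi y) := by
  wlog h : x.1 ≤ y.1 generalizing x y
  · rw [δ_symm, δ_symm (phi x)]; exact this _ _ (by omega)
  obtain ⟨m, s⟩ := x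
  obtain ⟨n, t⟩ := y
  change m ≤ n at h
  change 2 * (if m = n then d s t else s.length + t.length) ≤ if m / 2 = n / 2 then
    d (r m ++ st s) (r n ++ st t) else (r m ++ st s).length + (r n ++ st t).length
  split_ifs with a b b
  · subst a; rw [d_app, d_st]
  · omega
  · rw [r_odd (m := n) (by omega)]
    rcases r_even (m := m) (by omega) with e | e <;> rw [e]
    · rcases s with _ | ⟨_ | _, s⟩ <;> simp [st, d, st_len] <;> omega
    · simp [d, st_len]; omega
  · simp [st_len]; omega

def Ws (x : V) : Prop := W x.1 ∧ x.2 = []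

lemma δ_pos {x y : V} (h : x ≠ y) (hy : ¬ Ws y) : 1 ≤ δ (phi x) (phi y) := by
  have := δ_phi x y
  rcases Nat.eq_zero_or_pos (δ x y) with e | e
  swap; · omega
  obtain ⟨m, s⟩ := x
  obtain ⟨n, t⟩ := y
  simp only [δ] at e
  split_ifs at e with a
  · subst a; exact absurd (d_pos s t (by simpa using h)) (by omega)
  obtain ⟨rfl, rfl⟩ : s = [] ∧ t = [] := by simpa using e
  have l := r_len (m := n) (by simpa [Ws] using hy)
  simp only [δ, phi, st, List.append_nil]
  split_ifs with b
  · refine d_pos _ _ fun e => ?_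
    rcases Nat.mod_two_eq_zero_or_one m with c | c
    · rw [r_odd (m := n) (by omega)] at e
      rcases r_even c with f | f <;> simp [f] at e
    · rw [r_odd c] at e
      rcases r_even (m := n) (by omega) with f | f <;> simp [f] at e
  · omega

lemma phi_W (i : ℕ) : phi (2 ^ (i + 1), []) = (2 ^ i, []) := by
  simp only [phi, r, if_pos (show W (2 ^ (i + 1)) from ⟨i, rfl⟩), st, List.append_nil]
  congr 1; omega

lemma it_W (j i : ℕ) : phi^[j] (2 ^ (i + j), []) = (2 ^ i, []) := by
  induction j with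
  | zero => rfl
  | succ j ih => rw [Function.iterate_succ_apply, ← add_assoc, phi_W, ih]

lemma phi_inj : Function.Injective phi := by
  intro x y e
  by_contra h
  by_cases hy : Ws y
  · by_cases hx : Ws x
    · obtain ⟨m, s⟩ := x
      obtain ⟨n, t⟩ := y
      obtain ⟨⟨i, rfl⟩, rfl⟩ : (∃ j, m = 2 ^ (j + 1)) ∧ s = [] := hx
      obtain ⟨⟨j, rfl⟩, rfl⟩ : (∃ j, n = 2 ^ (j + 1)) ∧ t = [] := hy
      rw [phi_W, phi_W] at e
      exact h (by rw [pow_succ, pow_succ, (Prod.mk.inj e).1])
    · have := δ_pos (Ne.symm h) hx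
      rw [e, δ_self] at this; omega
  · have := δ_pos h hy
    rw [e, δ_self] at this; omega

lemma sep {x y : V} (h : x ≠ y) (hy : ¬ Ws y) (n : ℕ) :
    2 ^ n ≤ δ (phi^[n + 1] x) (phi^[n + 1] y) := by
  induction n with
  | zero => exact δ_pos h hy
  | succ n ih =>
    rw [Function.iterate_succ_apply' _ (n + 1), Function.iterate_succ_apply' _ (n + 1)]
    have := δ_phi (phi^[n + 1] x) (phi^[n + 1] y)
    omega

lemma len {y : V} (hy : ¬ Ws y) (n : ℕ) : 2 ^ n ≤ (phi^[n + 1] y).2.length := by
  induction n with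
  | zero =>
    simp only [phi, Function.iterate_one, zero_add, List.length_append, st_len]
    by_cases h : W y.1
    · have := List.length_pos_iff.2 fun e => hy ⟨h, e⟩
      omega
    · rw [r_len h]; omega
  | succ n ih =>
    rw [Function.iterate_succ_apply' _ (n + 1)]
    simp only [phi, List.length_append, st_len] at ih ⊢
    omega

lemma par_s (m : ℕ) : par (m + 1, []) = (m, []) := by simp [par]

lemma par_t (m : ℕ) (s : List Bool) (b : Bool) : par (m, s ++ [b]) = (m, s) := by simp [par]

lemma edge_ind {P : V → Prop} (h0 : P (0, [])) (h1 : ∀ m, P (m + 1, []))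
    (h2 : ∀ m s b, P (m, s ++ [b])) : ∀ v, P v := by
  rintro ⟨m, s⟩
  induction s using List.reverseRecOn with
  | nil => cases m; exacts [h0, h1 _]
  | append_singleton s b => exact h2 _ _ _

lemma rk_par {v : V} (h : v ≠ (0, [])) : rk v = rk (par v) + 1 := by
  induction v using edge_ind with
  | h0 => exact absurd rfl h
  | h1 m => simp [par_s, rk]
  | h2 m s b => simp [par_t, rk]; omega

lemma fin_le (N : ℕ) : {v : V | rk v ≤ N}.Finite :=
  ((Set.finite_Iic N).prod (List.finite_length_le Bool N)).subset fun _ hv =>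
    ⟨le_trans (Nat.le_add_right _ _) hv, le_trans (Nat.le_add_left _ _) hv⟩

def D (f : V → ℂ) (v : V) : ℂ := if v = (0, []) then f v else f v - f (par v)

lemma D0 (f : V → ℂ) : D f (0, []) = f (0, []) := by simp [D]
lemma Ds (f : V → ℂ) (m : ℕ) : D f (m + 1, []) = f (m + 1, []) - f (m, []) := by simp [D, par]
lemma Dt (f : V → ℂ) (m : ℕ) (s : List Bool) (b : Bool) :
    D f (m, s ++ [b]) = f (m, s ++ [b]) - f (m, s) := by simp [D, par]

lemma D_add (f g : V → ℂ) (v : V) : D (f + g) v = D f v + D g v := by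
  unfold D; split_ifs <;> simp; ring
lemma D_sub (f g : V → ℂ) (v : V) : D (f - g) v = D f v - D g v := by
  unfold D; split_ifs <;> simp; ring
lemma D_smul (c : ℂ) (f : V → ℂ) (v : V) : D (c • f) v = c * D f v := by
  unfold D; split_ifs <;> simp; ring

lemma lip {f : V → ℂ} {c : ℝ} {R : ℕ} (h : ∀ w, R ≤ rk w → ‖D f w‖ ≤ c) (v : V)
    (hv : 2 * R ≤ rk v - 1) : ‖D (f ∘ phi) v‖ ≤ 5 * c := by
  have c0 : 0 ≤ c := (norm_nonneg _).trans (h (R, []) (by simp [rk]))
  have two : ∀ p s a b, R ≤ p + s.length + 1 → ‖f (p, s ++ [a] ++ [b]) - f (p, s)‖ ≤ 2 * c :=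
    fun p s a b hp => by
      have a1 := h (p, s ++ [a]) (by simp [rk]; omega)
      have a2 := h (p, s ++ [a] ++ [b]) (by simp [rk]; omega)
      rw [Dt] at a1 a2
      linarith [norm_sub_le_norm_sub_add_norm_sub (f (p, s ++ [a] ++ [b])) (f (p, s ++ [a]))
        (f (p, s))]
  have rr : ∀ p m, R ≤ p → ‖f (p, r m) - f (p, [])‖ ≤ 2 * c := fun p m hp => by
    unfold r; split_ifs
    · simpa using c0
    · exact two p [] _ _ (by omega)
    · exact two p [] _ _ (by omega)
  induction v using edge_ind with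
  | h0 =>
    have a := rr 0 0 (by simp [rk] at hv; omega)
    have b := h (0, []) (by simp [rk] at hv; omega)
    rw [D0] at b ⊢
    simp only [Function.comp, phi, st, List.append_nil, Nat.zero_div]
    linarith [norm_sub_norm_le (f (0, r 0)) (f (0, []))]
  | h1 m =>
    simp only [rk, List.length_nil] at hv
    have a := rr ((m + 1) / 2) (m + 1) (by omega)
    have b := rr (m / 2) m (by omega)
    have e : ‖f ((m + 1) / 2, []) - f (m / 2, [])‖ ≤ c := by
      rcases (by omega : (m + 1) / 2 = m / 2 ∨ (m + 1) / 2 = m / 2 + 1) with e | e <;> rw [e]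
      · simpa using c0
      · rw [← Ds]; exact h _ (by simp [rk]; omega)
    rw [Ds]
    simp only [Function.comp, phi, st, List.append_nil]
    rw [norm_sub_rev] at b
    linarith [norm_sub_le_norm_sub_add_norm_sub (f ((m + 1) / 2, r (m + 1))) (f ((m + 1) / 2, []))
      (f (m / 2, r m)), norm_sub_le_norm_sub_add_norm_sub (f ((m + 1) / 2, [])) (f (m / 2, []))
      (f (m / 2, r m))]
  | h2 m s b =>
    simp only [rk, List.length_append, List.length_singleton] at hv
    rw [Dt]
    simp only [Function.comp, phi, st_snoc, ← List.append_assoc]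
    linarith [two (m / 2) (r m ++ st s) b b (by simp [st_len]; omega)]

def N (f : V → ℂ) (c : ℝ) : Prop := ∀ v, ‖D f v‖ ≤ c

lemma N.comp {f : V → ℂ} {c : ℝ} (h : N f c) : N (f ∘ phi) (5 * c) :=
  fun v => lip (R := 0) (fun w _ => h w) v (by omega)

lemma N.iter {f : V → ℂ} {c : ℝ} (h : N f c) (n : ℕ) : N (f ∘ phi^[n]) (5 ^ n * c) := by
  induction n with
  | zero => simpa using h
  | succ n ih =>
    rw [Function.iterate_succ, ← Function.comp_assoc, pow_succ', mul_assoc]
    exact ih.comp

lemma N.add {f g : V → ℂ} {a b : ℝ} (hf : N f a) (hg : N g b) : N (f + g) (a + b) := fun v => by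
  rw [D_add]; exact norm_add_le_of_le (hf v) (hg v)

lemma N.smul {f : V → ℂ} {a : ℝ} (hf : N f a) (c : ℂ) : N (c • f) (‖c‖ * a) := fun v => by
  rw [D_smul, norm_mul]; exact mul_le_mul_of_nonneg_left (hf v) (norm_nonneg _)

lemma N.mono {f : V → ℂ} {a b : ℝ} (hf : N f a) (h : a ≤ b) : N f b := fun v => (hf v).trans h

lemma N.zero : N 0 0 := fun v => by simp [D]

lemma Z_iff (f : V → ℂ) : Tendsto (D f) cofinite (𝓝 0) ↔
    ∀ ε : ℝ, 0 < ε → ∃ R, ∀ w, R ≤ rk w → ‖D f w‖ ≤ ε := by
  rw [NormedAddGroup.tendsto_nhds_zero]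
  refine ⟨fun h ε hε => ?_, fun h ε hε => ?_⟩
  · obtain ⟨R, hR⟩ := ((eventually_cofinite.1 (h ε hε)).image rk).bddAbove
    refine ⟨R + 1, fun w hw => le_of_lt (by_contra fun a => ?_)⟩
    have := hR ⟨w, a, rfl⟩
    omega
  · obtain ⟨R, hR⟩ := h (ε / 2) (by linarith)
    refine eventually_cofinite.2 ((fin_le R).subset fun w hw => ?_)
    by_contra a
    exact hw (by linarith [hR w (not_le.1 a).le])

lemma Z_phi {f : V → ℂ} (h : Tendsto (D f) cofinite (𝓝 0)) :
    Tendsto (D (f ∘ phi)) cofinite (𝓝 0) := by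
  rw [Z_iff] at h ⊢
  intro ε hε
  obtain ⟨R, hR⟩ := h (ε / 5) (by linarith)
  exact ⟨2 * R + 1, fun w hw => by linarith [lip hR w (by omega)]⟩

end Pool.Agent.H.MP_349e68_an
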