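import Mathlib
import Pool.Agent.H.MP_349e68_an.A

namespace Pool.Agent.H.MP_349e68_an

open Filter Topology Set

noncomputable def tent (ρ : V → ℝ) (L : ℝ) (z : V) : ℂ := ((max 0 (1 - ρ z / L) : ℝ) : ℂ)

lemma tent_zero {ρ : V → ℝ} {L : ℝ} (hL : 0 < L) {z : V} (h : L ≤ ρ z) : tent ρ L z = 0 := by
  rw [tent, max_eq_left (by rw [sub_nonpos, le_div_iff₀ hL]; linarith), Complex.ofReal_zero]

lemma tent_N {ρ : V → ℝ} {L : ℝ} (hL : 0 < L) (h0 : L ≤ ρ (0, []))
    (h : ∀ v ≠ (0, []), |ρ v - ρ (par v)| ≤ 1) : N (tent ρ L) (1 / L) := by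
  intro v
  unfold D
  split_ifs with e
  · rw [e, tent_zero hL h0, norm_zero]; positivity
  · rw [tent, tent, ← Complex.ofReal_sub, Complex.norm_real, Real.norm_eq_abs]
    refine (abs_max_sub_max_le_max _ _ _ _).trans (max_le (by simp [hL.le]) ?_)
    rw [sub_sub_sub_cancel_left, ← sub_div, abs_div, abs_of_pos hL, abs_sub_comm]
    exact div_le_div_of_nonneg_right (h v e) hL.le

lemma ex_k1 (n : ℕ) {x : V} (hx : ¬ Ws x) : ∃ k : V → ℂ, (Function.support k).Finite ∧
    N k (1 / 2 ^ n) ∧ k ∘ phi^[n + 1] = Pi.single x 1 := by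
  have l := len hx n
  have s := fun y (h : y ≠ x) => sep h hx n
  set u := phi^[n + 1] x with hu
  have p : (0 : ℝ) < 2 ^ n := by positivity
  refine ⟨tent (fun z => δ z u) (2 ^ n), (fin_le (rk u + 2 ^ n)).subset fun z hz => ?_,
    tent_N p ?_ fun v hv => ?_, funext fun y => ?_⟩
  · by_contra a
    refine hz (tent_zero p ?_)
    have := d_ge z.2 u.2
    simp only [mem_setOf_eq, rk] at a
    have : 2 ^ n ≤ δ z u := by unfold δ; split_ifs <;> omega
    exact_mod_cast this
  · have : 2 ^ n ≤ δ (0, []) u := by simpa [δ, d] using l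
    exact_mod_cast this
  · have : δ v u ≤ δ (par v) u + 1 ∧ δ (par v) u ≤ δ v u + 1 := by
      induction v using edge_ind with
      | h0 => exact absurd rfl hv
      | h1 m => simp [par_s, δ, d]
      | h2 m s b =>
        have := d_snoc b s u.2
        simp only [par_t, δ, List.length_append, List.length_singleton]
        split_ifs <;> omega
    have a : (δ v u : ℝ) ≤ δ (par v) u + 1 := by exact_mod_cast this.1
    have b : (δ (par v) u : ℝ) ≤ δ v u + 1 := by exact_mod_cast this.2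
    rw [abs_le]; constructor <;> linarith
  · by_cases e : y = x
    · subst e; simp only [Function.comp_apply, ← hu]; simp [tent, δ_self]
    · rw [Pi.single_eq_of_ne e]
      exact tent_zero p (by exact_mod_cast s y e)

lemma sum_single {g : V → ℂ} {S : Finset V} (h : ∀ x ∉ S, g x = 0) :
    g = ∑ v ∈ S, g v • (Pi.single v 1 : V → ℂ) := by
  funext x
  simp only [Finset.sum_apply, Pi.smul_apply, Pi.single_apply, smul_eq_mul, mul_ite, mul_one,
    mul_zero, Finset.sum_ite_eq]
  split_ifs with e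
  exacts [rfl, h x e]

lemma ex_k (n : ℕ) (S : Finset V) (h : V → ℂ) (hS : ∀ x ∈ S, ¬ Ws x) (h1 : ∀ x, ‖h x‖ ≤ 1) :
    ∃ k : V → ℂ, (Function.support k).Finite ∧ N k (S.card / 2 ^ n) ∧
      k ∘ phi^[n + 1] = ∑ v ∈ S, h v • (Pi.single v 1 : V → ℂ) := by
  induction S using Finset.induction_on with
  | empty => exact ⟨0, by simp, by simpa using N.zero, rfl⟩
  | insert x S hx ih =>
    obtain ⟨k, a1, a2, a3⟩ := ih fun y hy => hS y (Finset.mem_insert_of_mem hy)
    obtain ⟨k', b1, b2, b3⟩ := ex_k1 n (hS x (Finset.mem_insert_self _ _))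
    refine ⟨h x • k' + k, ((b1.subset (Function.support_const_smul_subset _ _)).union a1).subset
      (Function.support_add _ _), ((b2.smul _).add a2).mono ?_, ?_⟩
    · rw [Finset.card_insert_of_notMem hx]
      have := mul_le_mul_of_nonneg_right (h1 x) (show (0 : ℝ) ≤ 1 / 2 ^ n by positivity)
      push_cast
      rw [add_div]; linarith
    · rw [Finset.sum_insert hx, ← a3, ← b3]; rfl

def P (f g : V → ℂ) : Prop := ∀ ε : ℝ, 0 < ε → ∀ᶠ n in atTop, ∃ k : V → ℂ,
  (Function.support k).Finite ∧ N k ε ∧ N ((f + k) ∘ phi^[n] - g) ε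

lemma P.add {f g f' g' : V → ℂ} (hf : P f g) (hg : P f' g') : P (f + f') (g + g') := by
  intro ε hε
  filter_upwards [hf _ (half_pos hε), hg _ (half_pos hε)] with n ⟨h, a1, a2, a3⟩ ⟨k, b1, b2, b3⟩
  refine ⟨h + k, (a1.union b1).subset (Function.support_add _ _), (a2.add b2).mono (by linarith), ?_⟩
  convert a3.add b3 using 1
  · funext x; simp; ring
  · ring

lemma P.smul {f g : V → ℂ} (hf : P f g) (c : ℂ) : P (c • f) (c • g) := by
  intro ε hε
  have h0 : 0 < ‖c‖ + 1 := by positivity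
  have key : ‖c‖ * (ε / (‖c‖ + 1)) ≤ ε := by
    rw [← mul_div_assoc, div_le_iff₀ h0]; nlinarith
  filter_upwards [hf _ (div_pos hε h0)] with n ⟨h, a1, a2, a3⟩
  refine ⟨c • h, a1.subset (Function.support_const_smul_subset _ _), (a2.smul c).mono key, ?_⟩
  convert (a3.smul c).mono key using 1
  funext x; simp; ring

lemma ev_small (C : ℝ) {ε : ℝ} (hε : 0 < ε) : ∀ᶠ n : ℕ in atTop, C / 2 ^ n ≤ ε :=
  ((tendsto_const_nhds (x := C)).div_atTop
    (tendsto_pow_atTop_atTop_of_one_lt (by norm_num : (1 : ℝ) < 2))).eventually (ge_mem_nhds hε)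

lemma nW : ¬ Ws (2 ^ 0, []) := by rintro ⟨⟨j, h⟩, -⟩; simp only at h; omega

lemma P_r (x : V) : P 0 (Pi.single x 1) := by
  obtain ⟨j, hj⟩ : ∃ j, ¬ Ws (phi^[j] x) := by
    by_cases h : Ws x
    · obtain ⟨m, s⟩ := x
      obtain ⟨⟨i, rfl⟩, rfl⟩ : (∃ j, m = 2 ^ (j + 1)) ∧ s = [] := h
      have := it_W (i + 1) 0
      rw [zero_add] at this
      exact ⟨i + 1, this ▸ nW⟩
    · exact ⟨0, h⟩
  intro ε hε
  obtain ⟨n0, h0⟩ := eventually_atTop.1 (ev_small 1 hε)
  filter_upwards [eventually_ge_atTop (n0 + 1 + j)] with n hn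
  obtain ⟨n, rfl⟩ : ∃ n', n = n' + 1 + j := ⟨n - 1 - j, by omega⟩
  obtain ⟨k, a1, a2, a3⟩ := ex_k1 n hj
  refine ⟨k, a1, a2.mono (h0 n (by omega)), ?_⟩
  convert N.zero.mono hε.le using 1
  rw [zero_add, Function.iterate_add, ← Function.comp_assoc, a3, sub_eq_zero]
  funext y
  simp [Pi.single_apply, (phi_inj.iterate j).eq_iff]

lemma P_l (v : V) : P (Pi.single v 1) 0 := by
  intro ε hε
  obtain ⟨K, hK⟩ := exists_nat_one_div_lt hε
  set B := (List.finite_length_le Bool (K + 1)).toFinset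
  obtain ⟨n0, h0⟩ := eventually_atTop.1 (ev_small ((2 * K + 3 : ℕ) * B.card) hε)
  filter_upwards [eventually_ge_atTop (n0 + v.2.length + K + 3)] with n hn
  obtain ⟨n, rfl⟩ : ∃ n', n = n' + 1 := ⟨n - 1, by omega⟩
  by_cases hy : ∃ y, phi^[n + 1] y = v
  swap
  · refine ⟨0, by simp, N.zero.mono hε.le, ?_⟩
    convert N.zero.mono hε.le using 1
    funext y
    rw [add_zero, sub_zero]
    exact Pi.single_eq_of_ne (fun e => hy ⟨y, e⟩) _
  obtain ⟨y, hy⟩ := hy
  obtain ⟨i, hi, rfl⟩ : ∃ i, K + 1 < 2 ^ i ∧ y = (2 ^ (i + 1), []) := by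
    by_cases h : Ws y
    · obtain ⟨m, s⟩ := y
      obtain ⟨⟨i, rfl⟩, rfl⟩ : (∃ j, m = 2 ^ (j + 1)) ∧ s = [] := h
      refine ⟨i, lt_of_lt_of_le Nat.lt_two_pow_self (Nat.pow_le_pow_right two_pos ?_), rfl⟩
      by_contra a
      have := len nW (n - i - 1)
      rw [← it_W (i + 1) 0, ← Function.iterate_add_apply, zero_add,
        show n - i - 1 + 1 + (i + 1) = n + 1 by omega, hy] at this
      have := @Nat.lt_two_pow_self (n - i - 1)
      omega
    · have := len h n
      have := @Nat.lt_two_pow_self n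
      rw [hy] at *; omega
  set c := 2 ^ (i + 1) with hc
  have p : (0 : ℝ) < K + 1 := by positivity
  let β := tent (fun z => |(z.1 : ℝ) - c| + z.2.length) (K + 1)
  let S := (Finset.Icc (c - (K + 1)) (c + (K + 1)) ×ˢ B).erase (c, [])
  obtain ⟨k, a1, a2, a3⟩ := ex_k n S β (fun x hx ⟨⟨l, h1⟩, h2⟩ => by
    simp only [S, Finset.mem_erase, Finset.mem_product, Finset.mem_Icc] at hx
    rcases lt_trichotomy l i with e | e | e
    · have := Nat.pow_le_pow_right two_pos (show l + 1 ≤ i from e); omega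
    · exact hx.1 (Prod.ext (by rw [h1, e]) h2)
    · have := Nat.pow_le_pow_right two_pos (show i + 1 ≤ l from e); omega) fun x => by
    simp only [β, tent, Complex.norm_real, Real.norm_eq_abs]
    rw [abs_of_nonneg (le_max_left _ _)]
    exact max_le zero_le_one (sub_le_self _ (by positivity))
  refine ⟨k, a1, a2.mono (le_trans (div_le_div_of_nonneg_right ?_ (by positivity))
    (h0 n (by omega))), ?_⟩
  · have : S.card ≤ (2 * K + 3) * B.card := Finset.card_erase_le.trans (by
      rw [Finset.card_product, Nat.card_Icc]; exact Nat.mul_le_mul_right _ (by omega))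
    exact_mod_cast this
  have e : (Pi.single v 1 + k) ∘ phi^[n + 1] - 0 = β := by
    refine Eq.trans ?_ (sum_single (g := β) (S := insert (c, []) S) fun x hx => ?_).symm
    · rw [sub_zero, Pi.add_comp, a3, Finset.sum_insert (by simp [S])]
      congr 1
      funext y
      rw [Function.comp_apply, ← hy]
      simp only [Pi.single_apply, (phi_inj.iterate _).eq_iff]
      simp [β, tent, Pi.single_apply]
    · refine tent_zero p ?_
      by_contra a
      apply hx
      have a1 := abs_nonneg ((x.1 : ℝ) - c)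
      have a2 : (0 : ℝ) ≤ x.2.length := by positivity
      have a3 := le_abs_self ((x.1 : ℝ) - c)
      have a4 := neg_le_abs ((x.1 : ℝ) - c)
      have b1 : x.1 ≤ c + (K + 1) := by exact_mod_cast (by linarith : (x.1 : ℝ) ≤ c + (K + 1))
      have b2 : c ≤ x.1 + (K + 1) := by exact_mod_cast (by linarith : (c : ℝ) ≤ x.1 + (K + 1))
      have b3 : x.2.length ≤ K + 1 := by exact_mod_cast (by linarith : (x.2.length : ℝ) ≤ K + 1)
      simp only [S, B, Finset.mem_insert, Finset.mem_erase, Finset.mem_product, Finset.mem_Icc,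
        Finite.mem_toFinset, mem_setOf_eq]
      exact (em _).imp_right fun h => ⟨h, ⟨by omega, b1⟩, b3⟩
  rw [e]
  refine (tent_N p ?_ fun w hw => ?_).mono hK.le
  · have : ((K + 1 : ℕ) : ℝ) ≤ c := by exact_mod_cast (by omega : K + 1 ≤ c)
    simpa using this
  · induction w using edge_ind with
    | h0 => exact absurd rfl hw
    | h1 m => simpa [par_s] using abs_abs_sub_abs_le_abs_sub ((m : ℝ) + 1 - c) (m - c)
    | h2 m s b => simp [par_t]

lemma P_fin {f g : V → ℂ} (hf : (Function.support f).Finite) (hg : (Function.support g).Finite) :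
    P f g := by
  have z : P 0 0 := by simpa using (P_r (0, [])).smul 0
  have a : P f 0 := by
    rw [sum_single (g := f) (S := hf.toFinset) (by simp)]
    exact Finset.sum_induction _ (P · 0) (fun _ _ a b => by simpa using a.add b) z
      fun v _ => by simpa using (P_l v).smul (f v)
  have b : P 0 g := by
    rw [sum_single (g := g) (S := hg.toFinset) (by simp)]
    exact Finset.sum_induction _ (P 0 ·) (fun _ _ a b => by simpa using a.add b) z
      fun v _ => by simpa using (P_r v).smul (g v)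
  simpa using a.add b

lemma approx {g : V → ℂ} (hg : Tendsto (D g) cofinite (𝓝 0)) {ε : ℝ} (hε : 0 < ε) :
    ∃ h : V → ℂ, (Function.support h).Finite ∧ N (g - h) (3 * ε) := by
  obtain ⟨R, hR⟩ := (Z_iff g).1 hg ε hε
  obtain ⟨M, hM⟩ := ((fin_le R).image fun v => ‖g v‖).bddAbove
  let t : V → ℝ := fun v => max 0 (M + ε * (R - rk v))
  let cl : ℝ → ℝ → ℝ := fun a x => max (-a) (min a x)
  let h : V → ℂ := fun v => ⟨cl (t v) (g v).re, cl (t v) (g v).im⟩
  have e : ∀ v, rk v ≤ R → h v = g v := fun v hv => by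
    have a : ‖g v‖ ≤ t v := le_max_of_le_right ((hM ⟨v, hv, rfl⟩).trans (le_add_of_nonneg_right
      (mul_nonneg hε.le (sub_nonneg.2 (by exact_mod_cast hv)))))
    have b1 := abs_le.1 ((Complex.abs_re_le_norm (g v)).trans a)
    have b2 := abs_le.1 ((Complex.abs_im_le_norm (g v)).trans a)
    simp only [h, cl, min_eq_right b1.2, min_eq_right b2.2, max_eq_right b1.1, max_eq_right b2.1]
  obtain ⟨K, hK⟩ := exists_nat_ge (R + M / ε)
  refine ⟨h, (fin_le K).subset fun v hv => ?_, fun v => ?_⟩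
  · by_contra a
    have b : (K : ℝ) ≤ rk v := by exact_mod_cast (not_le.1 a).le
    have : t v = 0 := max_eq_left (by
      have := mul_div_cancel₀ M hε.ne'
      nlinarith)
    apply hv
    apply Complex.ext <;> simp [h, cl, this]
  by_cases h0 : v = (0, [])
  · rw [h0, D0, Pi.sub_apply, e _ (by simp [rk]), sub_self, norm_zero]; positivity
  have rp := rk_par h0
  by_cases h1 : rk v ≤ R
  · rw [D, if_neg h0, Pi.sub_apply, Pi.sub_apply, e _ h1, e _ (by omega)]
    simp; positivity
  have a := hR v (by omega)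
  have b : ∀ x y, |x - y| ≤ ε → |cl (t v) x - cl (t (par v)) y| ≤ ε := fun x y hxy => by
    have : |t v - t (par v)| ≤ ε := (abs_max_sub_max_le_max _ _ _ _).trans (max_le
      (by simp [hε.le]) (by rw [rp]; push_cast; ring_nf; simp [abs_of_pos hε]))
    exact (abs_max_sub_max_le_max _ _ _ _).trans (max_le (by rwa [neg_sub_neg, abs_sub_comm])
      ((abs_min_sub_min_le_max _ _ _ _).trans (max_le this hxy)))
  rw [D_sub]
  refine (norm_sub_le _ _).trans ?_
  have c := Complex.norm_le_abs_re_add_abs_im (D h v)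
  have c1 := (Complex.abs_re_le_norm _).trans a
  have c2 := (Complex.abs_im_le_norm _).trans a
  simp only [D, if_neg h0, Complex.sub_re, Complex.sub_im] at *
  linarith [b _ _ c1, b _ _ c2]

def I (a : V → ℂ) (v : V) : ℂ := ∑ i ∈ Finset.range (rk v + 1), a (par^[i] v)

lemma DI (a : V → ℂ) : D (I a) = a := by
  funext v
  by_cases h : v = (0, [])
  · simp [h, D0, I, rk]
  · rw [D, if_neg h, I, I, rk_par h, Finset.sum_range_succ' _ (rk (par v) + 1)]
    simp

lemma D_inj {f g : V → ℂ} (h : D f = D g) : f = g := by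
  funext v
  induction' e : rk v with n ih generalizing v
  · obtain ⟨m, s⟩ := v
    obtain ⟨rfl, rfl⟩ : m = 0 ∧ s = [] := by simpa [rk] using e
    simpa [D0] using congrFun h (0, [])
  · have h0 : v ≠ (0, []) := by rintro rfl; simp [rk] at e
    have := congrFun h v
    rw [D, D, if_neg h0, if_neg h0, ih (par v) (by have := rk_par h0; omega)] at this
    simpa using this

abbrev X := ZeroAtInftyContinuousMap V ℂ

lemma X_le (a : X) (v : V) : ‖a v‖ ≤ ‖a‖ := a.toBCF.norm_coe_le_norm v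

lemma X_tend (a : X) : Tendsto a cofinite (𝓝 0) := by
  have := a.zero_at_infty'
  rwa [cocompact_eq_cofinite] at this

lemma Z_fin {h : V → ℂ} (hh : (Function.support h).Finite) : Tendsto (D h) cofinite (𝓝 0) := by
  obtain ⟨R, hR⟩ := (hh.image rk).bddAbove
  have h2 : ∀ w : V, R < rk w → h w = 0 := fun w hw => by
    by_contra h3
    exact absurd (hR ⟨w, h3, rfl⟩) (not_le.2 hw)
  refine (Z_iff h).2 fun ε hε => ⟨R + 2, fun w hw => ?_⟩
  have h0 : w ≠ (0, []) := by rintro rfl; simp [rk] at hw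
  have := rk_par h0
  simp [D, h2 w (by omega), h2 (par w) (by omega), hε.le]

theorem hyper : ∃ f : V → ℂ, Tendsto (D f) cofinite (𝓝 0) ∧ ∀ g : V → ℂ,
    Tendsto (D g) cofinite (𝓝 0) → ∀ ε : ℝ, 0 < ε → ∃ n, N (f ∘ phi^[n] - g) ε := by
  let q := TopologicalSpace.denseSeq ℂ
  let em : (V →₀ ℕ) → V → ℂ := fun b v => if b v = 0 then 0 else q (b v - 1)
  have hem : ∀ b, (Function.support (em b)).Finite := fun b =>
    b.support.finite_toSet.subset fun v hv => by
      by_contra h
      exact hv (if_pos (by simpa using h))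
  let O : (V →₀ ℕ) × ℕ → Set X := fun z => {a | ∃ n, ∃ c < 1 / ((z.2 : ℝ) + 1),
    N (I a ∘ phi^[n] - em z.1) c}
  have hO : ∀ z, IsOpen (O z) := by
    intro z
    rw [Metric.isOpen_iff]
    rintro a ⟨n, c, hc, h⟩
    have hp : (0 : ℝ) < 5 ^ n := by positivity
    refine ⟨(1 / ((z.2 : ℝ) + 1) - c) / 5 ^ n, div_pos (by linarith) hp, fun a' ha' => ?_⟩
    rw [mem_ball_iff_norm, lt_div_iff₀ hp] at ha'
    refine ⟨n, c + 5 ^ n * ‖a' - a‖, by linarith, ?_⟩
    have h1 : N (I a' - I a) ‖a' - a‖ := fun v => by rw [D_sub, DI, DI]; exact X_le (a' - a) v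
    convert h.add (h1.iter n) using 1
    funext x; simp
  have hD : ∀ z, Dense (O z) := by
    intro z
    rw [Metric.dense_iff]
    intro a δ hδ
    obtain ⟨f, h1, h2⟩ := approx (g := I a) (by rw [DI]; exact X_tend a)
      (show 0 < δ / 9 by positivity)
    set η : ℝ := 1 / ((z.2 : ℝ) + 1) with hη
    have hη0 : 0 < η := by positivity
    obtain ⟨n, k, b1, b2, b3⟩ := (P_fin h1 (hem z.1) (min (δ / 3) (η / 3)) (by positivity)).exists
    refine ⟨⟨⟨D (f + k), continuous_of_discreteTopology⟩, ?_⟩, ?_, n, _,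
      (min_le_right (δ / 3) _).trans_lt (show η / 3 < η by linarith), ?_⟩
    · rw [cocompact_eq_cofinite]
      exact Z_fin ((h1.union b1).subset (Function.support_add _ _))
    · rw [mem_ball_iff_norm]
      refine lt_of_le_of_lt ((BoundedContinuousFunction.norm_le (C := 2 * δ / 3)
        (by positivity)).mpr fun v => ?_) (by linarith)
      show ‖D (f + k) v - a v‖ ≤ _
      have := h2 v
      rw [D_sub, DI] at this
      rw [D_add, show D f v + D k v - a v = D k v - (a v - D f v) by ring]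
      linarith [norm_sub_le (D k v) (a v - D f v), b2 v, min_le_left (δ / 3) (η / 3)]
    · show N (I (D (f + k)) ∘ _ - _) _
      rwa [D_inj (DI (D (f + k)))]
  obtain ⟨a, ha⟩ := (dense_iInter_of_isOpen hO hD).nonempty
  refine ⟨I a, by rw [DI]; exact X_tend a, fun g hg ε hε => ?_⟩
  obtain ⟨g', g1, g2⟩ := approx hg (show 0 < ε / 12 by positivity)
  have hq : ∀ v, ∃ m : ℕ, ‖(if m = 0 then 0 else q (m - 1)) - g' v‖ ≤ ε / 4 ∧
      (g' v = 0 → m = 0) := by
    intro v
    by_cases h : g' v = 0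
    · exact ⟨0, by simp [h]; positivity, fun _ => rfl⟩
    · obtain ⟨m, hm⟩ := (TopologicalSpace.denseRange_denseSeq ℂ).exists_dist_lt (g' v)
        (show 0 < ε / 4 by positivity)
      rw [dist_comm, dist_eq_norm] at hm
      exact ⟨m + 1, by simpa using hm.le, fun h' => absurd h' h⟩
  choose m q1 q2 using hq
  obtain ⟨k, hk⟩ := exists_nat_one_div_lt (show 0 < ε / 4 by positivity)
  obtain ⟨n, c, hc, h⟩ := mem_iInter.1 ha (Finsupp.ofSupportFinite m (g1.subset fun v hv h =>
    hv (q2 v h)), k)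
  set b := Finsupp.ofSupportFinite m (g1.subset fun v hv h => hv (q2 v h)) with hb
  have h1 : N (em b - g') (ε / 2) := fun v => by
    have q3 : ∀ v, ‖(em b - g') v‖ ≤ ε / 4 := q1
    unfold D; split_ifs
    · linarith [q3 v]
    · linarith [q3 v, q3 (par v), norm_sub_le ((em b - g') v) ((em b - g') (par v))]
  refine ⟨n, ?_⟩
  convert ((h.add h1).add (g2.smul (-1))).mono (b := ε) (by simp at hc hk ⊢; linarith) using 1
  funext x; simp

end Pool.Agent.H.MP_349e68_an
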